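import Pool.Agent.H98.Cyc9

set_option autoImplicit false

namespace Pool.Agent.Results.MP_830f5a_co.Formula

open Finset

/-- the moment curve `(s, s^2, ..., s^d)` -/
noncomputable def gam (d : ℕ) (s : ℝ) : EuclideanSpace ℝ (Fin d) :=
  WithLp.toLp 2 (fun i : Fin d => s ^ ((i:ℕ)+1))

/-- the cyclic polytope with parameters `t` -/
def cyc (d : ℕ) {n : ℕ} (t : Fin n → ℝ) : Set (EuclideanSpace ℝ (Fin d)) :=
  convexHull ℝ (Set.range fun x => gam d (t x))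

/-- sizes of finite sets of unit vectors illuminating every boundary point of `K` -/
def IllSizes {d : ℕ} (K : Set (EuclideanSpace ℝ (Fin d))) : Set ℕ :=
  {N | ∃ W : Finset (EuclideanSpace ℝ (Fin d)), W.card = N ∧ (∀ w ∈ W, ‖w‖ = 1) ∧
    ∀ q ∈ frontier K, ∃ w ∈ W, ∃ τ : ℝ, 0 < τ ∧ q + τ • w ∈ interior K}

/-- divided difference weight `1 / prod_{i ≠ j} |x j - x i|` of node `j` among `x 0, ..., x (N-1)` -/
noncomputable def weight (N : ℕ) (x : ℕ → ℝ) (j : ℕ) : ℝ :=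
  (∏ i ∈ (range N).erase j, |x j - x i|)⁻¹

/-- `a` and `b` are consecutive members of some increasing list of `d+2` vertices and carry more
than half of the total weight of that list -/
def Close (d : ℕ) {n : ℕ} (t : Fin n → ℝ) (a b : Fin n) : Prop :=
  ∃ (z : ℕ → Fin n) (k : ℕ), (∀ i j, i < j → j < d+2 → z i < z j) ∧ k+1 < d+2 ∧
    z k = a ∧ z (k+1) = b ∧
    ∑ j ∈ range (d+2), weight (d+2) (fun i => t (z i)) j
      < 2 * (weight (d+2) (fun i => t (z i)) k + weight (d+2) (fun i => t (z i)) (k+1))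

theorem result (d : ℕ) (hd : 2 ≤ d) :
    (∀ (n : ℕ) (t : Fin n → ℝ), d + 1 ≤ n → StrictMono t →
      ∃ I : ℕ, IsLeast (IllSizes (cyc d t)) I ∧
        IsGreatest {k | ∃ A : Finset (Fin n),
          (∀ a ∈ A, ∀ b ∈ A, a < b → ¬ Close d t a b) ∧ A.card = k} I) ∧
    (∃ t t' : Fin (2 * d - 1) → ℝ, StrictMono t ∧ StrictMono t' ∧
      IsLeast (IllSizes (cyc d t)) (2 * d - 1) ∧ IsLeast (IllSizes (cyc d t')) (d + 1)) := by
  obtain ⟨m, rfl⟩ : ∃ m, d = m + 2 := ⟨d - 2, by omega⟩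
  refine ⟨fun n t hn ht => ?_, ?_⟩
  · obtain ⟨I, h1, h2, _⟩ := Pool.Agent.H98.Cyc.formula hn ht
    exact ⟨I, h1, h2⟩
  · have hn : m + 2 + 1 ≤ 2 * (m+2) - 1 := by omega
    obtain ⟨t, ht, h⟩ := Pool.Agent.H98.Cyc.sharp m
    obtain ⟨I, h1, _, h3⟩ := Pool.Agent.H98.Cyc.formula (m := m) hn ht
    have e : I = 2 * (m+2) - 1 := le_antisymm h3 (h I h1.1)
    obtain ⟨t', ht', h'⟩ := Pool.Agent.H98.Cyc.small hn
    obtain ⟨I', h1', h2', _⟩ := Pool.Agent.H98.Cyc.formula hn ht'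
    obtain ⟨A, hA, hA2⟩ := h2'.1
    have e' : I' = m + 2 + 1 :=
      le_antisymm (hA2 ▸ h' A hA) (Pool.Agent.H98.Cyc.lower hn ht' h1'.1)
    exact ⟨t, t', ht, ht', e ▸ h1, e' ▸ h1'⟩

end Pool.Agent.Results.MP_830f5a_co.Formula
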