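import Pool.Agent.H98.Cyc9

set_option autoImplicit false

namespace Pool.Agent.Results.MP_830f5a_co.Max

open Finset

/-- the moment curve `(s, s^2, ..., s^d)` -/
noncomputable def gam (d : ℕ) (s : ℝ) : EuclideanSpace ℝ (Fin d) :=
  WithLp.toLp 2 (fun i : Fin d => s ^ ((i:ℕ)+1))

/-- the cyclic polytope with parameters `t` -/
def cyc (d : ℕ) {n : ℕ} (t : Fin n → ℝ) : Set (EuclideanSpace ℝ (Fin d)) :=
  convexHull ℝ (Set.range fun x => gam d (t x))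

/-- sizes of finite sets of unit vectors illuminating every boundary point of `K` -/
def IllSizes {d : ℕ} (K : Set (EuclideanSpace ℝ (Fin d))) : Set ℕ :=
  {N | ∃ W : Finset (EuclideanSpace ℝ (Fin d)), W.card = N ∧ (∀ w ∈ W, ‖w‖ = 1) ∧
    ∀ q ∈ frontier K, ∃ w ∈ W, ∃ τ : ℝ, 0 < τ ∧ q + τ • w ∈ interior K}

theorem result (d : ℕ) (hd : 2 ≤ d) :
    IsGreatest {I : ℕ | ∃ (n : ℕ) (t : Fin n → ℝ), d + 1 ≤ n ∧ StrictMono t ∧
      IsLeast (IllSizes (cyc d t)) I} (2 * d - 1) := by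
  obtain ⟨m, rfl⟩ : ∃ m, d = m + 2 := ⟨d - 2, by omega⟩
  constructor
  · have hn : m + 2 + 1 ≤ 2 * (m+2) - 1 := by omega
    obtain ⟨t, ht, h⟩ := Pool.Agent.H98.Cyc.sharp m
    obtain ⟨I, h1, _, h3⟩ := Pool.Agent.H98.Cyc.formula (m := m) hn ht
    have e : I = 2 * (m+2) - 1 := le_antisymm h3 (h I h1.1)
    exact ⟨_, t, hn, ht, e ▸ h1⟩
  · rintro J ⟨n, t, hn, ht, hJ⟩
    obtain ⟨I, h1, _, h3⟩ := Pool.Agent.H98.Cyc.formula hn ht
    exact (hJ.2 h1.1).trans h3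

end Pool.Agent.Results.MP_830f5a_co.Max
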